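import Pool.Agent.Y489.GE.Stm2

/-! GV-BD (helper489): the boundary of a simplex has finite covering dimension (helper427) -/

set_option autoImplicit false

open Set Topology

namespace Pool.Agent.Y427.GE

open Pool.Agent.Y489.GE

theorem covDim_of_map {K K' : Type} [MetricSpace K] [MetricSpace K'] {k q : ℕ} (hkq : k ≤ q)
    (φ : K → K') (hφ : Continuous φ) (hd : ∀ y y', dist y y' ≤ dist (φ y) (φ y'))
    (h : CovDim K' k) : CovDim K q := by
  intro ε hε
  obtain ⟨n, U, h1, h2, h3, h4⟩ := h ε hε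
  refine ⟨n, fun i => φ ⁻¹' U i, fun i => (h1 i).preimage hφ, ?_, ?_, ?_⟩
  · intro i x hx y hy
    exact (hd x y).trans (h2 i _ hx _ hy)
  · intro x
    exact h3 (φ x)
  · intro x
    exact (h4 (φ x)).trans (by omega)

theorem fac_le {W : Type} [Fintype W] {σ : Finset W} {y : W → ℝ} (hy : y ∈ Fac σ) (w : W) :
    y w ≤ 1 := by
  rw [← hy.2.1]
  exact Finset.single_le_sum (f := y) (fun i _ => hy.1 i) (Finset.mem_univ w)

theorem isClosed_fac {W : Type} [Fintype W] (σ : Finset W) : IsClosed (Fac σ) := by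
  have e : Fac σ = {y : W → ℝ | ∀ w, 0 ≤ y w} ∩ ({y : W → ℝ | ∑ w, y w = 1} ∩
      {y : W → ℝ | ∀ w, w ∉ σ → y w = 0}) := by
    ext y
    constructor
    · rintro ⟨h1, h2, h3⟩
      exact ⟨h1, h2, fun w hw => by_contra fun h => hw (h3 w h)⟩
    · rintro ⟨h1, h2, h3⟩
      exact ⟨h1, h2, fun w hw => by_contra fun h => hw (h3 w h)⟩
  rw [e]
  refine IsClosed.inter ?_ (IsClosed.inter ?_ ?_)
  · rw [setOf_forall]
    exact isClosed_iInter fun w => isClosed_le continuous_const (continuous_apply w)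
  · exact isClosed_eq (continuous_finset_sum _ fun w _ => continuous_apply w) continuous_const
  · rw [setOf_forall]
    refine isClosed_iInter fun w => ?_
    rw [setOf_forall]
    exact isClosed_iInter fun _ => isClosed_eq (continuous_apply w) continuous_const

theorem isClosed_bd {W : Type} [Fintype W] (σ : Finset W) : IsClosed (Bd σ) := by
  have e : Bd σ = Fac σ ∩ ⋃ w ∈ σ, {y : W → ℝ | y w = 0} := by
    ext y
    simp only [Bd, mem_setOf_eq, mem_inter_iff, mem_iUnion, exists_prop]
  rw [e]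
  refine (isClosed_fac σ).inter ?_
  exact isClosed_biUnion_finset fun w _ => isClosed_eq (continuous_apply w) continuous_const

theorem t_BD : S_KUHN → S_BD := by
  intro hk W _ σ q hq
  have hcomp : IsCompact (Bd σ) := by
    refine IsCompact.of_isClosed_subset (isCompact_Icc (a := (0 : W → ℝ)) (b := 1))
      (isClosed_bd σ) ?_
    intro y hy
    exact ⟨fun w => hy.1.1 w, fun w => fac_le hy.1 w⟩
  refine ⟨isCompact_iff_compactSpace.1 hcomp, ?_⟩
  set e : Fin σ.card ≃ σ := σ.equivFin.symm with he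
  refine covDim_of_map hq (fun (y : ↥(Bd σ)) (i : Fin σ.card) =>
    (⟨y.1 (e i).1, y.2.1.1 _, fac_le y.2.1 _⟩ : unitInterval)) ?_ ?_ (hk σ.card)
  · refine continuous_pi fun i => Continuous.subtype_mk ?_ _
    exact (continuous_apply _).comp continuous_subtype_val
  · intro y y'
    rw [Subtype.dist_eq, dist_pi_le_iff dist_nonneg]
    intro w
    by_cases hw : w ∈ σ
    · obtain ⟨i, hi⟩ := e.surjective ⟨w, hw⟩
      have h1 := dist_le_pi_dist (fun (i : Fin σ.card) =>
        (⟨y.1 (e i).1, y.2.1.1 _, fac_le y.2.1 _⟩ : unitInterval)) (fun (i : Fin σ.card) =>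
        (⟨y'.1 (e i).1, y'.2.1.1 _, fac_le y'.2.1 _⟩ : unitInterval)) i
      rw [Subtype.dist_eq] at h1
      simp only [hi] at h1
      exact h1
    · have h1 : y.1 w = 0 := by_contra fun h => hw (y.2.1.2.2 w h)
      have h2 : y'.1 w = 0 := by_contra fun h => hw (y'.2.1.2.2 w h)
      rw [h1, h2, dist_self]
      exact dist_nonneg

end Pool.Agent.Y427.GE
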