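import Pool.Agent.Y489.GE.Stm2

/-! GV-WID (helper489): small Hausdorff measure gives small width (helper427) -/

set_option autoImplicit false

open Set Topology MeasureTheory

namespace Pool.Agent.Y427.GE

open Pool.Agent.Y489.GE

theorem t_WID : S_CUT → S_THICK → S_WID := by
  intro hcut hthick m
  induction m with
  | zero =>
    refine ⟨1 / 2, by norm_num, ?_⟩
    intro X _ _ _ _ r hr h
    have hemp : ∀ x : X, False := by
      intro x
      have h1 := h x
      have h2 : μH[((0 : ℕ) : ℝ)] ({x} : Set X) ≤ μH[((0 : ℕ) : ℝ)] (Metric.closedBall x r) :=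
        measure_mono (by
          rw [singleton_subset_iff]
          exact Metric.mem_closedBall_self hr.le)
      rw [Nat.cast_zero] at h1 h2
      rw [Measure.hausdorffMeasure_zero_singleton] at h2
      have h3 := lt_of_le_of_lt h2 h1
      rw [pow_zero, mul_one] at h3
      have h4 : ENNReal.ofReal (1 / 2) ≤ 1 := by
        rw [← ENNReal.ofReal_one]
        exact ENNReal.ofReal_le_ofReal (by norm_num)
      exact absurd (lt_of_lt_of_le h3 h4) (lt_irrefl _)
    refine ⟨0, fun i => i.elim0, fun i => i.elim0, fun i => i.elim0, fun x => (hemp x).elim,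
      fun x => (hemp x).elim⟩
  | succ m ih =>
    obtain ⟨c, hc, ih⟩ := ih
    have h4 : (0 : ℝ) < 4 ^ m := by positivity
    refine ⟨c / (6 * 4 ^ m), by positivity, ?_⟩
    intro X _ _ _ _ r hr h
    have hc' : 0 < c / (6 * 4 ^ m) := by positivity
    obtain ⟨Y, hY, hYm⟩ := hcut X m r (c / (6 * 4 ^ m)) hr hc' (by
      intro x
      have := h x
      rwa [Nat.cast_add, Nat.cast_one] at this)
    have : CompactSpace ↥Y := isCompact_iff_compactSpace.1 hY.1.isCompact
    apply hthick X r m Y hr hY
    apply ih ↥Y (r / 4) (by positivity)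
    intro y
    have h5 : μH[(m : ℝ)] (Subtype.val '' (Metric.closedBall y (r / 4))) =
        μH[(m : ℝ)] (Metric.closedBall y (r / 4)) :=
      (isometry_subtype_coe (s := Y)).hausdorffMeasure_image (Or.inl (Nat.cast_nonneg m)) _
    rw [← h5]
    refine lt_of_le_of_lt (measure_mono ?_) (lt_of_lt_of_le (hYm y.1) ?_)
    · rintro _ ⟨z, hz, rfl⟩
      exact ⟨z.2, hz⟩
    · apply ENNReal.ofReal_le_ofReal
      rw [div_pow]
      have e1 : 5 * (c / (6 * 4 ^ m)) * r ^ m = (5 / 6) * (c * (r ^ m / 4 ^ m)) := by
        field_simp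
      rw [e1]
      have e2 : 0 ≤ c * (r ^ m / 4 ^ m) := by positivity
      linarith

end Pool.Agent.Y427.GE
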